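import Mathlib

/-!
# The free metabelian group of rank two through flows on the grid

`Mg` is the group of the triples `(v, x, y)`, `v` a point of `ℤ²`, `x`, `y` finite integer
combinations of the horizontal and of the vertical edges of the grid. A word of the free group on
two generators gives its end point and its flow (`flow`).
-/

set_option autoImplicit false

namespace Pool.Agent.X196.SQ

open AddMonoidAlgebra

/-- the group ring of `ℤ²` -/
abbrev R := AddMonoidAlgebra ℤ (ℤ × ℤ)

/-- the monomials -/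
noncomputable def T (v : ℤ × ℤ) : R := single v 1

theorem T_add (v w : ℤ × ℤ) : T (v + w) = T v * T w := by
  simp [T, single_mul_single]

theorem T_zero : T 0 = 1 := rfl

theorem T_neg_mul (v : ℤ × ℤ) : T (-v) * T v = 1 := by
  rw [← T_add, neg_add_cancel, T_zero]

theorem T_mul_neg (v : ℤ × ℤ) : T v * T (-v) = 1 := by
  rw [← T_add, add_neg_cancel, T_zero]

/-- points of the grid with a flow -/
@[ext] structure Mg where
  /-- the end point -/
  v : ℤ × ℤ
  /-- the flow on the horizontal edges -/
  x : R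
  /-- the flow on the vertical edges -/
  y : R

noncomputable instance : Mul Mg := ⟨fun a b => ⟨a.v + b.v, a.x + T a.v * b.x, a.y + T a.v * b.y⟩⟩
noncomputable instance : One Mg := ⟨⟨0, 0, 0⟩⟩
noncomputable instance : Inv Mg := ⟨fun a => ⟨-a.v, -(T (-a.v) * a.x), -(T (-a.v) * a.y)⟩⟩

theorem mul_v (a b : Mg) : (a * b).v = a.v + b.v := rfl
theorem mul_x (a b : Mg) : (a * b).x = a.x + T a.v * b.x := rfl
theorem mul_y (a b : Mg) : (a * b).y = a.y + T a.v * b.y := rfl
theorem one_v : (1 : Mg).v = 0 := rfl
theorem one_x : (1 : Mg).x = 0 := rfl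
theorem one_y : (1 : Mg).y = 0 := rfl
theorem inv_v (a : Mg) : (a⁻¹).v = -a.v := rfl
theorem inv_x (a : Mg) : (a⁻¹).x = -(T (-a.v) * a.x) := rfl
theorem inv_y (a : Mg) : (a⁻¹).y = -(T (-a.v) * a.y) := rfl

noncomputable instance : Group Mg := Group.ofLeftAxioms
  (by
    intro a b c
    ext1
    · simp only [mul_v, add_assoc]
    · simp only [mul_x, mul_v, T_add]; ring
    · simp only [mul_y, mul_v, T_add]; ring)
  (by
    intro a
    ext1
    · simp only [mul_v, one_v, zero_add]
    · simp only [mul_x, one_x, one_v, T_zero]; ring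
    · simp only [mul_y, one_y, one_v, T_zero]; ring)
  (by
    intro a
    ext1
    · simp only [mul_v, inv_v, one_v, neg_add_cancel]
    · simp only [mul_x, inv_x, inv_v, one_x]; ring
    · simp only [mul_y, inv_y, inv_v, one_y]; ring)

/-- the end point as a homomorphism -/
noncomputable def vh : Mg →* Multiplicative (ℤ × ℤ) where
  toFun a := Multiplicative.ofAdd a.v
  map_one' := rfl
  map_mul' _ _ := rfl

/-- the free group of rank two -/
abbrev F := FreeGroup (Fin 2)

/-- the first generator -/
abbrev ga : F := FreeGroup.of 0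

/-- the second generator -/
abbrev gb : F := FreeGroup.of 1

/-- the end point and the flow of a word -/
noncomputable def flow : F →* Mg := FreeGroup.lift ![⟨(1, 0), 1, 0⟩, ⟨(0, 1), 0, 1⟩]

theorem flow_a : flow ga = ⟨(1, 0), 1, 0⟩ := by simp [flow, ga]
theorem flow_b : flow gb = ⟨(0, 1), 0, 1⟩ := by simp [flow, gb]

/-- induction over the free group, along an automorphism -/
theorem flow_ind (φ : F →* F) (P : Mg → Prop) (h1 : P 1) (ha : P (flow (φ ga)))
    (hb : P (flow (φ gb))) (hm : ∀ z w, P z → P w → P (z * w)) (hi : ∀ z, P z → P z⁻¹) (g : F) :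
    P (flow (φ g)) := by
  induction g using FreeGroup.induction_on with
  | C1 => rw [map_one, map_one]; exact h1
  | of i =>
    fin_cases i
    · exact ha
    · exact hb
  | inv_of i h => rw [map_inv, map_inv]; exact hi _ h
  | mul g h hg hh => rw [map_mul, map_mul]; exact hm _ _ hg hh

theorem fund (g : F) :
    (flow g).x * (T (1, 0) - 1) + (flow g).y * (T (0, 1) - 1) = T (flow g).v - 1 := by
  refine flow_ind (MonoidHom.id F)
    (fun z => z.x * (T (1, 0) - 1) + z.y * (T (0, 1) - 1) = T z.v - 1) ?_ ?_ ?_ ?_ ?_ g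
  · simp [one_x, one_y, one_v, T_zero]
  · simp [flow_a]
  · simp [flow_b]
  · intro z w hz hw
    simp only [mul_x, mul_y, mul_v, T_add]
    linear_combination hz + T z.v * hw
  · intro z hz
    simp only [inv_x, inv_y, inv_v]
    linear_combination -T (-z.v) * hz - T_neg_mul z.v

/-- the augmentation -/
noncomputable def aug : R →+* ℤ :=
  (AddMonoidAlgebra.lift ℤ ℤ (ℤ × ℤ) (1 : Multiplicative (ℤ × ℤ) →* ℤ)).toRingHom

theorem aug_single (v : ℤ × ℤ) (c : ℤ) : aug (single v c) = c := by
  simp [aug]

theorem aug_T (v : ℤ × ℤ) : aug (T v) = 1 := aug_single v 1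

theorem aug_flow (g : F) : aug (flow g).x = (flow g).v.1 ∧ aug (flow g).y = (flow g).v.2 := by
  refine flow_ind (MonoidHom.id F) (fun z => aug z.x = z.v.1 ∧ aug z.y = z.v.2) ?_ ?_ ?_ ?_ ?_ g
  · simp [one_x, one_y, one_v]
  · simp [flow_a]
  · simp [flow_b]
  · intro z w hz hw
    simp only [mul_x, mul_y, mul_v, map_add, map_mul, aug_T, hz.1, hz.2, hw.1, hw.2, one_mul,
      Prod.fst_add, Prod.snd_add, and_self]
  · intro z hz
    simp only [inv_x, inv_y, inv_v, map_neg, map_mul, aug_T, hz.1, hz.2, one_mul,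
      Prod.fst_neg, Prod.snd_neg, and_self]

end Pool.Agent.X196.SQ
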