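import Pool.Agent.X196.SQ.Lau

/-!
# Primitive elements with the same end point have conjugate flows
-/

set_option autoImplicit false

namespace Pool.Agent.X196.SQ

open AddMonoidAlgebra

theorem vflow (g : F) : vh (flow g) = Multiplicative.ofAdd (flow g).v := rfl

/-- every point is the end of a word -/
theorem exists_end (w : ℤ × ℤ) : ∃ g : F, (flow g).v = w := by
  refine ⟨ga ^ w.1 * gb ^ w.2, ?_⟩
  have h : vh (flow (ga ^ w.1 * gb ^ w.2)) = Multiplicative.ofAdd w := by
    rw [map_mul, map_mul, map_zpow, map_zpow, map_zpow, map_zpow, flow_a, flow_b]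
    show Multiplicative.ofAdd ((1, 0) : ℤ × ℤ) ^ w.1 * Multiplicative.ofAdd ((0, 1) : ℤ × ℤ) ^ w.2
      = Multiplicative.ofAdd w
    rw [← ofAdd_zsmul, ← ofAdd_zsmul, ← ofAdd_add]
    congr 1
    ext <;> simp
  exact Multiplicative.ofAdd.injective h

theorem flow_comm : flow (ga * gb * ga⁻¹ * gb⁻¹) = ⟨0, 1 - T (0, 1), T (1, 0) - 1⟩ := by
  simp only [map_mul, map_inv, flow_a, flow_b]
  ext1
  · simp [mul_v, inv_v]
  · simp only [mul_x, mul_v, inv_x, inv_v, mul_zero, mul_one, neg_zero, add_zero]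
    rw [mul_neg, ← T_add]
    have : ((1, 0) + (0, 1) + -(1, 0) : ℤ × ℤ) = (0, 1) := by simp
    rw [this]
    ring
  · simp only [mul_y, mul_v, inv_y, inv_v, mul_zero, mul_one, neg_zero, add_zero, zero_add]
    rw [mul_neg, ← T_add]
    have : ((1, 0) + (0, 1) + -(1, 0) + -(0, 1) : ℤ × ℤ) = 0 := by simp
    rw [this, T_zero]
    ring

/-- the closed flows of words -/
def clo : AddSubgroup R where
  carrier := {P | ∃ g : F, flow g = ⟨0, P * (1 - T (0, 1)), P * (T (1, 0) - 1)⟩}
  zero_mem' := ⟨1, by rw [map_one, zero_mul, zero_mul]; rfl⟩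
  add_mem' := by
    rintro P Q ⟨g, hg⟩ ⟨h, hh⟩
    refine ⟨g * h, ?_⟩
    rw [map_mul, hg, hh]
    ext1
    · simp [mul_v]
    · simp only [mul_x, T_zero]; ring
    · simp only [mul_y, T_zero]; ring
  neg_mem' := by
    rintro P ⟨g, hg⟩
    refine ⟨g⁻¹, ?_⟩
    rw [map_inv, hg]
    ext1
    · simp [inv_v]
    · simp only [inv_x, neg_zero, T_zero]; ring
    · simp only [inv_y, neg_zero, T_zero]; ring

theorem clo_top (P : R) : P ∈ clo := by
  have h1 : ∀ c : ℤ × ℤ, T c ∈ clo := by
    intro c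
    obtain ⟨g, hg⟩ := exists_end c
    refine ⟨g * (ga * gb * ga⁻¹ * gb⁻¹) * g⁻¹, ?_⟩
    rw [map_mul, map_mul, flow_comm, map_inv]
    ext1
    · simp [mul_v, inv_v]
    · simp only [mul_x, mul_v, inv_x, hg, add_zero]
      linear_combination -(flow g).x * T_mul_neg c
    · simp only [mul_y, mul_v, inv_y, hg, add_zero]
      linear_combination -(flow g).y * T_mul_neg c
  induction P using AddMonoidAlgebra.induction_linear with
  | zero => exact zero_mem _
  | add f g hf hg => exact add_mem hf hg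
  | single c k =>
    have h2 : (single c k : R) = k • T c := by
      rw [T, AddMonoidAlgebra.smul_single, smul_eq_mul, mul_one]
    rw [h2]
    exact zsmul_mem (h1 c) k

/-- every flow with the right boundary is the flow of a word -/
theorem realize (z : Mg) (hz : z.x * (T (1, 0) - 1) + z.y * (T (0, 1) - 1) = T z.v - 1) :
    ∃ g : F, flow g = z := by
  obtain ⟨g, hg⟩ := exists_end z.v
  have h1 := fund g
  obtain ⟨P, hx, hy⟩ := koszul (a := z.x - (flow g).x) (b := z.y - (flow g).y) (by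
    rw [hg] at h1
    linear_combination hz - h1)
  obtain ⟨c, hc⟩ := clo_top P
  refine ⟨c * g, ?_⟩
  rw [map_mul, hc]
  ext1
  · simp [mul_v, hg]
  · simp only [mul_x, T_zero]
    rw [← hx]; ring
  · simp only [mul_y, T_zero]
    rw [← hy]; ring

/-- the flows of all words are combinations of the flows of the elements of a basis -/
theorem gen (φ : F ≃* F) (g : F) : ∃ α β : R,
    (flow g).x = α * (flow (φ ga)).x + β * (flow (φ gb)).x ∧
    (flow g).y = α * (flow (φ ga)).y + β * (flow (φ gb)).y := by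
  have h := flow_ind φ.toMonoidHom (fun z => ∃ α β : R,
    z.x = α * (flow (φ ga)).x + β * (flow (φ gb)).x ∧
    z.y = α * (flow (φ ga)).y + β * (flow (φ gb)).y) ?_ ?_ ?_ ?_ ?_ (φ.symm g)
  · have h1 : φ.toMonoidHom (φ.symm g) = g := φ.apply_symm_apply g
    rwa [h1] at h
  · exact ⟨0, 0, by simp [one_x], by simp [one_y]⟩
  · exact ⟨1, 0, by simp, by simp⟩
  · exact ⟨0, 1, by simp, by simp⟩
  · rintro z w ⟨α, β, h1, h2⟩ ⟨γ, δ, h3, h4⟩
    refine ⟨α + T z.v * γ, β + T z.v * δ, ?_, ?_⟩
    · rw [mul_x, h1, h3]; ring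
    · rw [mul_y, h2, h4]; ring
  · rintro z ⟨α, β, h1, h2⟩
    refine ⟨-(T (-z.v) * α), -(T (-z.v) * β), ?_, ?_⟩
    · rw [inv_x, h1]; ring
    · rw [inv_y, h2]; ring

/-- the Jacobian of an automorphism is a unit -/
theorem jac (φ : F ≃* F) : ∃ u : R,
    u * ((flow (φ ga)).x * (flow (φ gb)).y - (flow (φ ga)).y * (flow (φ gb)).x) = 1 := by
  obtain ⟨α, β, h1, h2⟩ := gen φ ga
  obtain ⟨γ, δ, h3, h4⟩ := gen φ gb
  rw [flow_a] at h1 h2
  rw [flow_b] at h3 h4
  refine ⟨α * δ - β * γ, ?_⟩
  have h5 : (α * (flow (φ ga)).x + β * (flow (φ gb)).x) *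
      (γ * (flow (φ ga)).y + δ * (flow (φ gb)).y) -
      (α * (flow (φ ga)).y + β * (flow (φ gb)).y) *
      (γ * (flow (φ ga)).x + δ * (flow (φ gb)).x) = 1 := by
    rw [← h1, ← h2, ← h3, ← h4]; simp
  rw [← h5]; ring

theorem jac_det (φ : F ≃* F) :
    det (flow (φ ga)).v (flow (φ gb)).v * det (flow (φ ga)).v (flow (φ gb)).v = 1 := by
  obtain ⟨u, hu⟩ := jac φ
  have h := congrArg aug hu
  simp only [map_mul, map_sub, map_one, (aug_flow _).1, (aug_flow _).2] at h
  have h1 : aug u * det (flow (φ ga)).v (flow (φ gb)).v = 1 := by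
    rw [det_apply]; linear_combination h
  rcases Int.mul_eq_one_iff_eq_one_or_neg_one.mp h1 with h2 | h2 <;> rw [h2.2] <;> norm_num

theorem v_ne (φ : F ≃* F) : (flow (φ ga)).v ≠ 0 := by
  intro h
  have := jac_det φ
  rw [det_apply, h] at this
  simp at this

/-- the reduced flow of a primitive element -/
theorem reduced (φ : F ≃* F) : ∃ D E : L, E * D = 1 ∧
    D * (red (flow (φ ga)).v (T (0, 1)) - 1) = red (flow (φ ga)).v (flow (φ ga)).x * (s 1 - 1) ∧
    D * (red (flow (φ ga)).v (T (1, 0)) - 1) = -red (flow (φ ga)).v (flow (φ ga)).y * (s 1 - 1) := by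
  obtain ⟨u, hu⟩ := jac φ
  have hd := jac_det φ
  have f1 := congrArg (red (flow (φ ga)).v) (fund (φ ga))
  have f2 := congrArg (red (flow (φ ga)).v) (fund (φ gb))
  have h := congrArg (red (flow (φ ga)).v) hu
  simp only [map_mul, map_sub, map_add, map_one] at f1 f2 h
  rw [red_T (flow (φ ga)).v (flow (φ ga)).v, show det (flow (φ ga)).v (flow (φ ga)).v = 0 by
    rw [det_apply]; ring, s_zero] at f1
  rw [red_T (flow (φ ga)).v (flow (φ gb)).v] at f2
  generalize det (flow (φ ga)).v (flow (φ gb)).v = ε at *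
  generalize red (flow (φ ga)).v (T (0, 1)) = U at *
  generalize red (flow (φ ga)).v (T (1, 0)) = V at *
  generalize red (flow (φ ga)).v (flow (φ ga)).x = X at *
  generalize red (flow (φ ga)).v (flow (φ ga)).y = Y at *
  generalize red (flow (φ ga)).v (flow (φ gb)).x = X' at *
  generalize red (flow (φ ga)).v (flow (φ gb)).y = Y' at *
  generalize red (flow (φ ga)).v u = W at *
  have hε : ε = 1 ∨ ε = -1 := by
    rcases Int.mul_eq_one_iff_eq_one_or_neg_one.mp hd with h2 | h2
    · exact Or.inl h2.1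
    · exact Or.inr h2.1
  rcases hε with rfl | rfl
  · refine ⟨X * Y' - Y * X', W, h, ?_, ?_⟩
    · linear_combination -X' * f1 + X * f2
    · linear_combination Y' * f1 - Y * f2
  · have h3 : s 1 * s (-1) = 1 := by rw [← s_add, ← s_zero]; norm_num
    refine ⟨-(s 1 * (X * Y' - Y * X')), -(s (-1) * W), ?_, ?_, ?_⟩
    · linear_combination h + W * (X * Y' - Y * X') * h3
    · linear_combination s 1 * X' * f1 - s 1 * X * f2 - X * h3
    · linear_combination -s 1 * Y' * f1 + s 1 * Y * f2 + Y * h3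

/-- primitive elements with the same end point have conjugate flows -/
theorem conj_flow (φ ψ : F ≃* F) (h : (flow (φ ga)).v = (flow (ψ ga)).v) :
    ∃ g : F, flow (g⁻¹ * φ ga * g) = flow (ψ ga) := by
  obtain ⟨D1, E1, u1, a1, b1⟩ := reduced φ
  obtain ⟨D2, E2, u2, a2, b2⟩ := reduced ψ
  rw [← h] at a2 b2
  have hv := v_ne φ
  have hd := jac_det φ
  have hs : s 1 - 1 ≠ 0 := by
    intro h0
    have h4 : s 1 = s 0 := by rw [s_zero]; exact sub_eq_zero.mp h0
    exact one_ne_zero (s_inj h4)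
  set v := (flow (φ ga)).v with hvdef
  -- the factor
  obtain ⟨k, c, hk⟩ := unit_eq (e := D1 * E2) (f := E1 * D2) (by
    linear_combination E2 * D2 * u1 + u2)
  have hX : red v (flow (φ ga)).x = single k c * red v (flow (ψ ga)).x := by
    rw [← hk]
    apply mul_right_cancel₀ hs
    linear_combination -a1 + D1 * E2 * a2 - D1 * (red v (T (0, 1)) - 1) * u2
  have hY : red v (flow (φ ga)).y = single k c * red v (flow (ψ ga)).y := by
    rw [← hk]
    apply mul_right_cancel₀ hs
    linear_combination b1 - D1 * E2 * b2 + D1 * (red v (T (1, 0)) - 1) * u2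
  have hc : c = 1 := by
    have h1 := congrArg augL hX
    have h2 := congrArg augL hY
    rw [map_mul, augL_red, augL_red, augL_single, (aug_flow _).1, (aug_flow _).1, ← h] at h1
    rw [map_mul, augL_red, augL_red, augL_single, (aug_flow _).2, (aug_flow _).2, ← h] at h2
    by_contra hc1
    have h3 : (c - 1) * v.1 = 0 := by rw [← hvdef] at h1; linear_combination -h1
    have h4 : (c - 1) * v.2 = 0 := by rw [← hvdef] at h2; linear_combination -h2
    have h5 : c - 1 ≠ 0 := fun h => hc1 (by linarith)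
    refine hv (Prod.ext ?_ ?_)
    · rcases mul_eq_zero.mp h3 with h6 | h6
      · exact absurd h6 h5
      · exact h6
    · rcases mul_eq_zero.mp h4 with h6 | h6
      · exact absurd h6 h5
      · exact h6
  subst hc
  set w : ℤ × ℤ := (det v (flow (φ gb)).v * k) • (flow (φ gb)).v with hw
  have hdw : det v w = k := by
    rw [hw, map_zsmul, smul_eq_mul]
    linear_combination k * hd
  have hTw : red v (T w) = single k 1 := by rw [red_T, hdw]; rfl
  obtain ⟨zx, hzx⟩ := dvd_of_red v (flow (φ gb)).v hd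
    ((flow (φ ga)).x - T w * (flow (ψ ga)).x) (by
      rw [map_sub, map_mul, hTw, hX, sub_self])
  obtain ⟨zy, hzy⟩ := dvd_of_red v (flow (φ gb)).v hd
    ((flow (φ ga)).y - T w * (flow (ψ ga)).y) (by
      rw [map_sub, map_mul, hTw, hY, sub_self])
  obtain ⟨g, hg⟩ := realize ⟨w, -zx, -zy⟩ (by
    have f1 := fund (φ ga)
    have f2 := fund (ψ ga)
    rw [← h] at f2
    apply mul_left_cancel₀ (T_sub_one_ne hv)
    show (T v - 1) * (-zx * (T (1, 0) - 1) + -zy * (T (0, 1) - 1)) = (T v - 1) * (T w - 1)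
    linear_combination (T (1, 0) - 1) * hzx + (T (0, 1) - 1) * hzy - f1 + T w * f2)
  refine ⟨g, ?_⟩
  have key : flow (φ ga) = flow g * flow (ψ ga) * (flow g)⁻¹ := by
    rw [hg]
    ext1
    · simp only [mul_v, inv_v]
      rw [← h]; abel
    · simp only [mul_x, mul_v, inv_x, ← h]
      have e1 : T (w + v) * T (-w) = T v := by
        rw [← T_add]; congr 1; abel
      linear_combination hzx - zx * e1
    · simp only [mul_y, mul_v, inv_y, ← h]
      have e1 : T (w + v) * T (-w) = T v := by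
        rw [← T_add]; congr 1; abel
      linear_combination hzy - zy * e1
  rw [map_mul, map_mul, map_inv, key]
  group

end Pool.Agent.X196.SQ
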