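import Pool.Agent.X196.SQ.Basic

/-!
# Reduction along a primitive vector, units of Laurent polynomials
-/

set_option autoImplicit false

namespace Pool.Agent.X196.SQ

open AddMonoidAlgebra

/-- Laurent polynomials -/
abbrev L := AddMonoidAlgebra ℤ ℤ

/-- the monomials -/
noncomputable def s (k : ℤ) : L := single k 1

theorem s_add (j k : ℤ) : s (j + k) = s j * s k := by
  rw [s, s, s, single_mul_single, mul_one]

theorem s_zero : s 0 = 1 := rfl

theorem s_inj {j k : ℤ} (h : s j = s k) : j = k := by
  unfold s at h
  exact (single_left_inj one_ne_zero).mp h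

/-- units of the ring of Laurent polynomials are monomials -/
theorem unit_eq {e f : L} (h : e * f = 1) : ∃ k c : ℤ, e = single k c := by
  classical
  have he : e ≠ 0 := by
    rintro rfl
    rw [zero_mul] at h
    exact zero_ne_one h
  have hf : f ≠ 0 := by
    rintro rfl
    rw [mul_zero] at h
    exact zero_ne_one h
  have hse : e.coeff.support.Nonempty := by
    rw [Finsupp.support_nonempty_iff]
    intro h0
    exact he (coeff_injective (by rw [h0]; rfl))
  have hsf : f.coeff.support.Nonempty := by
    rw [Finsupp.support_nonempty_iff]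
    intro h0
    exact hf (coeff_injective (by rw [h0]; rfl))
  by_cases hc : 1 < e.coeff.support.card * f.coeff.support.card
  · exfalso
    obtain ⟨p, hp, q, hq, hne, hup, huq⟩ := TwoUniqueSums.uniqueAdd_of_one_lt_card hc
    rw [Finset.mem_product] at hp hq
    have key : ∀ r : ℤ × ℤ, r.1 ∈ e.coeff.support → r.2 ∈ f.coeff.support →
        UniqueAdd e.coeff.support f.coeff.support r.1 r.2 → r.1 + r.2 = 0 := by
      intro r h1 h2 hu
      by_contra hne0
      have h3 := AddMonoidAlgebra.coeff_mul_add_of_uniqueAdd hu
      rw [h, one_def, coeff_single, Finsupp.single_eq_of_ne hne0] at h3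
      rw [Finsupp.mem_support_iff] at h1 h2
      exact mul_ne_zero h1 h2 h3.symm
    have h1 := key p hp.1 hp.2 hup
    have h2 := key q hq.1 hq.2 huq
    have h3 := hup hq.1 hq.2 (h2.trans h1.symm)
    exact hne (Prod.ext h3.1.symm h3.2.symm)
  · have h1 := hse.card_pos
    have h2 := hsf.card_pos
    have h3 : e.coeff.support.card = 1 := by nlinarith
    obtain ⟨k, hk⟩ := Finset.card_eq_one.mp h3
    refine ⟨k, e.coeff k, coeff_injective ?_⟩
    rw [coeff_single]
    exact Finsupp.eq_single_iff.mpr ⟨by rw [hk], rfl⟩

/-- the augmentation of Laurent polynomials -/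
noncomputable def augL : L →+* ℤ :=
  (AddMonoidAlgebra.lift ℤ ℤ ℤ (1 : Multiplicative ℤ →* ℤ)).toRingHom

theorem augL_single (v : ℤ) (c : ℤ) : augL (single v c) = c := by
  have h : augL (single v c) = AddMonoidAlgebra.lift ℤ ℤ ℤ (1 : Multiplicative ℤ →* ℤ)
    (single v c) := rfl
  rw [h, AddMonoidAlgebra.lift_single, MonoidHom.one_apply, smul_eq_mul, mul_one]

/-- the determinant with the first vector fixed -/
def det (v : ℤ × ℤ) : ℤ × ℤ →+ ℤ where
  toFun c := v.1 * c.2 - v.2 * c.1
  map_zero' := by simp
  map_add' c d := by simp only [Prod.fst_add, Prod.snd_add]; ring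

theorem det_apply (v c : ℤ × ℤ) : det v c = v.1 * c.2 - v.2 * c.1 := rfl

/-- the reduction modulo `T v - 1` -/
noncomputable def red (v : ℤ × ℤ) : R →+* L :=
  AddMonoidAlgebra.mapDomainRingHom ℤ (det v)

theorem red_single (v c : ℤ × ℤ) (k : ℤ) : red v (single c k) = single (det v c) k := by
  simp [red]

theorem red_T (v c : ℤ × ℤ) : red v (T c) = s (det v c) := red_single v c 1

theorem augL_red (v : ℤ × ℤ) (f : R) : augL (red v f) = aug f := by
  induction f using AddMonoidAlgebra.induction_linear with
  | zero => simp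
  | add f g hf hg => rw [map_add, map_add, map_add, hf, hg]
  | single c k => rw [red_single, augL_single, aug_single]

theorem dvd_T_zsmul (v : ℤ × ℤ) (i : ℤ) : T v - 1 ∣ T (i • v) - 1 := by
  have hn : ∀ n : ℕ, T v - 1 ∣ T (n • v) - 1 := by
    intro n
    induction n with
    | zero => simp [T_zero]
    | succ n ih =>
      rw [succ_nsmul, T_add]
      have : T (n • v) * T v - 1 = (T (n • v) - 1) * T v + (T v - 1) := by ring
      rw [this]
      exact dvd_add (Dvd.dvd.mul_right ih _) dvd_rfl
  obtain ⟨n, rfl | rfl⟩ := i.eq_nat_or_neg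
  · rw [natCast_zsmul]
    exact hn n
  · rw [neg_smul, natCast_zsmul]
    have h := T_neg_mul (n • v)
    have : T (-(n • v)) - 1 = -T (-(n • v)) * (T (n • v) - 1) := by
      linear_combination h
    rw [this]
    exact Dvd.dvd.mul_left (hn n) _

/-- the kernel of the reduction -/
theorem dvd_of_red (v v' : ℤ × ℤ) (hv : det v v' * det v v' = 1) (f : R) (h : red v f = 0) :
    T v - 1 ∣ f := by
  set ε := det v v' with hε
  let sec : L →+* R := AddMonoidAlgebra.mapDomainRingHom ℤ
    (((zmultiplesHom (ℤ × ℤ)) v').comp (AddMonoidHom.mulLeft ε))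
  have hsec : ∀ j k : ℤ, sec (single j k) = single ((ε * j) • v') k := by
    intro j k
    have h : sec (single j k) = AddMonoidAlgebra.mapDomain
      (((zmultiplesHom (ℤ × ℤ)) v').comp (AddMonoidHom.mulLeft ε)) (single j k) := rfl
    rw [h, AddMonoidAlgebra.mapDomain_single]
    rfl
  have key : ∀ f : R, T v - 1 ∣ f - sec (red v f) := by
    intro f
    induction f using AddMonoidAlgebra.induction_linear with
    | zero => simp
    | add f g hf hg =>
      have : f + g - sec (red v (f + g)) = (f - sec (red v f)) + (g - sec (red v g)) := by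
        rw [map_add, map_add]; ring
      rw [this]
      exact dvd_add hf hg
    | single c k =>
      rw [red_single, hsec]
      have hc : c = (ε * (c.1 * v'.2 - c.2 * v'.1)) • v + (ε * det v c) • v' := by
        rw [det_apply, hε, det_apply]
        rw [hε, det_apply] at hv
        ext
        · simp only [Prod.fst_add, Prod.smul_fst, smul_eq_mul]
          linear_combination -c.1 * hv
        · simp only [Prod.snd_add, Prod.smul_snd, smul_eq_mul]
          linear_combination -c.2 * hv
      have h1 : ∀ w : ℤ × ℤ, (single w k : R) = T w * single 0 k := by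
        intro w
        rw [T, single_mul_single, add_zero, one_mul]
      rw [h1 c, h1 ((ε * det v c) • v')]
      have h2 : T c = T ((ε * (c.1 * v'.2 - c.2 * v'.1)) • v) * T ((ε * det v c) • v') := by
        rw [← T_add, ← hc]
      rw [h2]
      have h3 := dvd_T_zsmul v (ε * (c.1 * v'.2 - c.2 * v'.1))
      generalize T ((ε * (c.1 * v'.2 - c.2 * v'.1)) • v) = A at *
      have : A * T ((ε * det v c) • v') * single 0 k - T ((ε * det v c) • v') * single 0 k =
          (A - 1) * (T ((ε * det v c) • v') * single 0 k) := by ring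
      rw [this]
      exact Dvd.dvd.mul_right h3 _
  have := key f
  rwa [h, map_zero, sub_zero] at this

theorem T_sub_one_ne {v : ℤ × ℤ} (hv : v ≠ 0) : T v - 1 ≠ 0 := by
  intro h
  have h1 : T v = T 0 := by rw [T_zero]; exact sub_eq_zero.mp h
  exact hv ((single_left_inj one_ne_zero).mp h1)

/-- the closed flows on the grid -/
theorem koszul {a b : R} (h : a * (T (1, 0) - 1) + b * (T (0, 1) - 1) = 0) :
    ∃ P : R, a = P * (1 - T (0, 1)) ∧ b = P * (T (1, 0) - 1) := by
  have h1 : red (1, 0) b = 0 := by
    have h2 := congrArg (red (1, 0)) h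
    simp only [map_add, map_mul, map_sub, map_one, red_T, map_zero] at h2
    rw [show det (1, 0) (1, 0) = 0 by simp [det_apply], show det (1, 0) (0, 1) = 1 by
      simp [det_apply], s_zero, sub_self, mul_zero, zero_add] at h2
    rcases mul_eq_zero.mp h2 with h3 | h3
    · exact h3
    · exfalso
      have h4 : s 1 = s 0 := by rw [s_zero]; exact sub_eq_zero.mp h3
      exact one_ne_zero (s_inj h4)
  obtain ⟨P, hP⟩ := dvd_of_red (1, 0) (0, 1) (by simp [det_apply]) b h1
  refine ⟨P, ?_, by rw [hP]; ring⟩
  have h2 : (T (1, 0) - 1) * (a - P * (1 - T (0, 1))) = 0 := by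
    rw [hP] at h
    linear_combination h
  rcases mul_eq_zero.mp h2 with h3 | h3
  · exact absurd h3 (T_sub_one_ne (by simp))
  · exact sub_eq_zero.mp h3

end Pool.Agent.X196.SQ
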