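import Pool.Agent.X196.SQ.Pos

/-!
# Infinite diameter of the solvable quotients of the group of the once-punctured torus
-/

set_option autoImplicit false

namespace Pool.Agent.X196.SQ

open AddMonoidAlgebra

theorem ker_comm {z w : Mg} (hz : z ∈ vh.ker) (hw : w ∈ vh.ker) : z * w = w * z := by
  have h1 : z.v = 0 := Multiplicative.ofAdd.injective hz
  have h2 : w.v = 0 := Multiplicative.ofAdd.injective hw
  ext1
  · simp only [mul_v, h1, h2]
  · simp only [mul_x, h1, h2, T_zero]; ring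
  · simp only [mul_y, h1, h2, T_zero]; ring

theorem derived_Mg : derivedSeries Mg 2 = ⊥ := by
  have h1 : derivedSeries Mg 1 ≤ vh.ker := by
    rw [derivedSeries_one]
    exact Abelianization.commutator_subset_ker vh
  rw [eq_bot_iff]
  show ⁅derivedSeries Mg 1, derivedSeries Mg 1⁆ ≤ ⊥
  rw [Subgroup.commutator_le]
  intro z hz w hw
  rw [Subgroup.mem_bot, commutatorElement_eq_one_iff_mul_comm]
  exact ker_comm (h1 hz) (h1 hw)

/-- the second derived subgroup has no flow -/
theorem flow_derived {n : ℕ} (hn : 2 ≤ n) {g : F} (hg : g ∈ derivedSeries F n) : flow g = 1 := by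
  have h1 : g ∈ derivedSeries F 2 := derivedSeries_antitone F hn hg
  have h2 : flow g ∈ derivedSeries Mg 2 :=
    map_derivedSeries_le_derivedSeries flow 2 (Subgroup.mem_map_of_mem flow h1)
  rw [derived_Mg] at h2
  exact Subgroup.mem_bot.mp h2

/-- the elements with a small flow -/
def Small : Set F := {g | Bd 1 (flow g)}

theorem bd_list (l : List F) (hl : ∀ x ∈ l, x ∈ Small ∨ x⁻¹ ∈ Small) :
    Bd (l.length : ℤ) (flow l.prod) := by
  induction l with
  | nil => simpa using Bd.one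
  | cons x l ih =>
    have h1 : Bd 1 (flow x) := by
      rcases hl x (by simp) with h | h
      · exact h
      · have h2 : Bd 1 (flow x⁻¹)⁻¹ := Bd.inv h
        rwa [map_inv, inv_inv] at h2
    have h2 := h1.mul (ih fun y hy => hl y (by simp [hy]))
    rw [List.prod_cons, map_mul, List.length_cons]
    have h3 : (1 : ℤ) + (l.length : ℤ) = ((l.length + 1 : ℕ) : ℤ) := by push_cast; ring
    rwa [h3] at h2

theorem pow_comm (n : ℕ) : flow ((ga * gb * ga⁻¹ * gb⁻¹) ^ n) =
    ⟨0, (n : R) * (1 - T (0, 1)), (n : R) * (T (1, 0) - 1)⟩ := by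
  induction n with
  | zero => simp; rfl
  | succ n ih =>
    rw [pow_succ, map_mul, ih, flow_comm]
    ext1
    · simp [mul_v]
    · simp only [mul_x, T_zero]; push_cast; ring
    · simp only [mul_y, T_zero]; push_cast; ring

theorem coeff_pow (n : ℕ) : ((n : R) * (1 - T (0, 1))).coeff 0 = n := by
  rw [← nsmul_eq_mul, coeff_smul, Finsupp.smul_apply, coeff_sub, Finsupp.sub_apply, coeff_one',
    coeff_T, if_pos rfl, if_neg (by simp), sub_zero, nsmul_eq_mul, mul_one]

theorem main : ∃ S : Set (FreeGroup (Fin 2)), Subgroup.closure S = ⊤ ∧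
    (∀ φ : FreeGroup (Fin 2) ≃* FreeGroup (Fin 2), ∃ s ∈ S, IsConj (φ (FreeGroup.of 0)) s) ∧
    ∀ n, 2 ≤ n → ∀ k : ℕ, ∃ g : FreeGroup (Fin 2), ∀ l : List (FreeGroup (Fin 2)),
      l.length ≤ k → (∀ x ∈ l, x ∈ S ∨ x⁻¹ ∈ S) →
      (QuotientGroup.mk l.prod : FreeGroup (Fin 2) ⧸ derivedSeries (FreeGroup (Fin 2)) n) ≠
        QuotientGroup.mk g := by
  refine ⟨Small, ?_, ?_, ?_⟩
  · rw [eq_top_iff, ← FreeGroup.closure_range_of, Subgroup.closure_le]
    rintro _ ⟨i, rfl⟩
    apply Subgroup.subset_closure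
    show Bd 1 (flow (FreeGroup.of i))
    have h : ∀ g : F, g ∈ M → Bd 1 (flow (sgn 1 1 g)) := fun g hg =>
      pos_of_mem (Or.inl rfl) (Or.inl rfl) hg
    fin_cases i
    · have h1 := h _ ga_mem
      rw [sgn_a, zpow_one] at h1
      exact h1
    · have h1 := h _ gb_mem
      rw [sgn_b, zpow_one] at h1
      exact h1
  · intro φ
    obtain ⟨g, hg⟩ := prim_conj φ
    refine ⟨g⁻¹ * φ ga * g, hg, ?_⟩
    rw [isConj_iff]
    exact ⟨g⁻¹, by rw [inv_inv]⟩
  · intro n hn k
    refine ⟨(ga * gb * ga⁻¹ * gb⁻¹) ^ (k + 1), fun l hl hS heq => ?_⟩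
    have h1 := flow_derived hn (QuotientGroup.eq.mp heq)
    rw [map_mul, map_inv, inv_mul_eq_one] at h1
    have h2 := bd_list l hS
    rw [h1, pow_comm] at h2
    have h3 := (h2 0).1
    rw [coeff_pow] at h3
    have h4 : ((k + 1 : ℕ) : ℤ) ≤ (l.length : ℤ) := (le_abs_self _).trans h3
    have h5 : (k + 1 : ℕ) ≤ l.length := by exact_mod_cast h4
    omega

end Pool.Agent.X196.SQ
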