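import Pool.Agent.X196.SQ.Conj

/-!
# Primitive elements given by monotone paths
-/

set_option autoImplicit false

namespace Pool.Agent.X196.SQ

open AddMonoidAlgebra

/-- no coefficient of the flow exceeds `k` -/
def Bd (k : ℤ) (z : Mg) : Prop := ∀ c : ℤ × ℤ, |z.x.coeff c| ≤ k ∧ |z.y.coeff c| ≤ k

theorem coeff_T_mul (v : ℤ × ℤ) (f : R) (c : ℤ × ℤ) : (T v * f).coeff c = f.coeff (-v + c) := by
  rw [T, AddMonoidAlgebra.coeff_single_mul_apply, one_mul]

theorem Bd.mul {k l : ℤ} {z w : Mg} (hz : Bd k z) (hw : Bd l w) : Bd (k + l) (z * w) := by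
  intro c
  rw [mul_x, mul_y, coeff_add, coeff_add, Finsupp.add_apply, Finsupp.add_apply, coeff_T_mul,
    coeff_T_mul]
  exact ⟨(abs_add_le _ _).trans (add_le_add (hz c).1 (hw _).1),
    (abs_add_le _ _).trans (add_le_add (hz c).2 (hw _).2)⟩

theorem Bd.inv {k : ℤ} {z : Mg} (hz : Bd k z) : Bd k z⁻¹ := by
  intro c
  rw [inv_x, inv_y, coeff_neg, coeff_neg, Finsupp.neg_apply, Finsupp.neg_apply, abs_neg, abs_neg,
    coeff_T_mul, coeff_T_mul]
  exact hz _

theorem Bd.one : Bd 0 1 := by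
  intro c
  rw [one_x, one_y]
  simp

/-- the level of a point -/
def lev (ε δ : ℤ) (c : ℤ × ℤ) : ℤ := ε * c.1 + δ * c.2

/-- the flows of monotone paths -/
def Pos (ε δ sx sy : ℤ) (z : Mg) : Prop := 0 ≤ lev ε δ z.v ∧
  (∀ c, z.x.coeff c ≠ 0 → |z.x.coeff c| ≤ 1 ∧ sx ≤ lev ε δ c ∧ lev ε δ c < lev ε δ z.v + sx) ∧
  (∀ c, z.y.coeff c ≠ 0 → |z.y.coeff c| ≤ 1 ∧ sy ≤ lev ε δ c ∧ lev ε δ c < lev ε δ z.v + sy)

theorem Pos.bd {ε δ sx sy : ℤ} {z : Mg} (h : Pos ε δ sx sy z) : Bd 1 z := by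
  intro c
  constructor
  · by_cases h0 : z.x.coeff c = 0
    · rw [h0]; simp
    · exact (h.2.1 c h0).1
  · by_cases h0 : z.y.coeff c = 0
    · rw [h0]; simp
    · exact (h.2.2 c h0).1

theorem lev_add (ε δ : ℤ) (c d : ℤ × ℤ) : lev ε δ (c + d) = lev ε δ c + lev ε δ d := by
  simp only [lev, Prod.fst_add, Prod.snd_add]; ring

theorem lev_neg (ε δ : ℤ) (c : ℤ × ℤ) : lev ε δ (-c) = -lev ε δ c := by
  simp only [lev, Prod.fst_neg, Prod.snd_neg]; ring

theorem Pos.mul {ε δ sx sy : ℤ} {z w : Mg} (hz : Pos ε δ sx sy z) (hw : Pos ε δ sx sy w) :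
    Pos ε δ sx sy (z * w) := by
  refine ⟨?_, ?_, ?_⟩
  · rw [mul_v, lev_add]
    exact add_nonneg hz.1 hw.1
  · intro c
    rw [mul_x, mul_v, lev_add, coeff_add, Finsupp.add_apply, coeff_T_mul]
    intro h
    have hz1 := hz.1
    have hw1 := hw.1
    by_cases h1 : z.x.coeff c = 0
    · rw [h1, zero_add] at h ⊢
      have h2 := hw.2.1 _ h
      rw [lev_add, lev_neg] at h2
      exact ⟨h2.1, by linarith [h2.2.1], by linarith [h2.2.2]⟩
    · have h2 := hz.2.1 c h1
      by_cases h3 : w.x.coeff (-z.v + c) = 0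
      · rw [h3, add_zero]
        exact ⟨h2.1, h2.2.1, by linarith [h2.2.2]⟩
      · have h4 := hw.2.1 _ h3
        rw [lev_add, lev_neg] at h4
        linarith [h2.2.2, h4.2.1]
  · intro c
    rw [mul_y, mul_v, lev_add, coeff_add, Finsupp.add_apply, coeff_T_mul]
    intro h
    have hz1 := hz.1
    have hw1 := hw.1
    by_cases h1 : z.y.coeff c = 0
    · rw [h1, zero_add] at h ⊢
      have h2 := hw.2.2 _ h
      rw [lev_add, lev_neg] at h2
      exact ⟨h2.1, by linarith [h2.2.1], by linarith [h2.2.2]⟩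
    · have h2 := hz.2.2 c h1
      by_cases h3 : w.y.coeff (-z.v + c) = 0
      · rw [h3, add_zero]
        exact ⟨h2.1, h2.2.1, by linarith [h2.2.2]⟩
      · have h4 := hw.2.2 _ h3
        rw [lev_add, lev_neg] at h4
        linarith [h2.2.2, h4.2.1]

theorem Pos.one {ε δ sx sy : ℤ} : Pos ε δ sx sy 1 := by
  refine ⟨?_, ?_, ?_⟩
  · rw [one_v]; simp [lev]
  · intro c h
    rw [one_x] at h
    exact absurd rfl h
  · intro c h
    rw [one_y] at h
    exact absurd rfl h

theorem coeff_T (v c : ℤ × ℤ) : (T v).coeff c = if v = c then 1 else 0 := by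
  classical
  rw [T, coeff_single, Finsupp.single_apply]

theorem coeff_one' (c : ℤ × ℤ) : (1 : R).coeff c = if (0 : ℤ × ℤ) = c then 1 else 0 := by
  rw [← T_zero, coeff_T]

/-- sign changes of the generators -/
noncomputable def sgn (ε δ : ℤ) : F →* F := FreeGroup.lift ![ga ^ ε, gb ^ δ]

theorem sgn_a (ε δ : ℤ) : sgn ε δ ga = ga ^ ε := by simp [sgn, ga]
theorem sgn_b (ε δ : ℤ) : sgn ε δ gb = gb ^ δ := by simp [sgn, gb]

/-- sign changes are automorphisms -/
noncomputable def sgnE (ε δ : ℤ) (hε : ε * ε = 1) (hδ : δ * δ = 1) : F ≃* F :=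
  MonoidHom.toMulEquiv (sgn ε δ) (sgn ε δ)
    (by
      ext i
      fin_cases i
      · show sgn ε δ (sgn ε δ ga) = ga
        rw [sgn_a, map_zpow, sgn_a, ← zpow_mul, hε, zpow_one]
      · show sgn ε δ (sgn ε δ gb) = gb
        rw [sgn_b, map_zpow, sgn_b, ← zpow_mul, hδ, zpow_one])
    (by
      ext i
      fin_cases i
      · show sgn ε δ (sgn ε δ ga) = ga
        rw [sgn_a, map_zpow, sgn_a, ← zpow_mul, hε, zpow_one]
      · show sgn ε δ (sgn ε δ gb) = gb
        rw [sgn_b, map_zpow, sgn_b, ← zpow_mul, hδ, zpow_one])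

theorem sgnE_apply (ε δ : ℤ) (hε : ε * ε = 1) (hδ : δ * δ = 1) (g : F) :
    sgnE ε δ hε hδ g = sgn ε δ g := rfl

theorem flow_ainv : flow ga⁻¹ = ⟨(-1, 0), -T (-1, 0), 0⟩ := by
  rw [map_inv, flow_a]
  ext1
  · simp [inv_v]
  · simp [inv_x]
  · simp [inv_y]

theorem flow_binv : flow gb⁻¹ = ⟨(0, -1), 0, -T (0, -1)⟩ := by
  rw [map_inv, flow_b]
  ext1
  · simp [inv_v]
  · simp [inv_x]
  · simp [inv_y]

theorem exists_pos (ε δ : ℤ) (hε : ε = 1 ∨ ε = -1) (hδ : δ = 1 ∨ δ = -1) : ∃ sx sy : ℤ,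
    Pos ε δ sx sy (flow (ga ^ ε)) ∧ Pos ε δ sx sy (flow (gb ^ δ)) := by
  have key : ∃ sx : ℤ, ∀ sy, Pos ε δ sx sy (flow (ga ^ ε)) := by
    rcases hε with rfl | rfl
    · refine ⟨0, fun sy => ?_⟩
      rw [zpow_one, flow_a]
      refine ⟨by simp [lev], ?_, ?_⟩
      · intro c
        show (1 : R).coeff c ≠ 0 → |(1 : R).coeff c| ≤ 1 ∧ _
        rw [coeff_one']
        split_ifs with h
        · intro _
          rw [← h]
          simp [lev]
        · intro h1
          exact absurd rfl h1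
      · intro c h
        exact absurd rfl h
    · refine ⟨1, fun sy => ?_⟩
      rw [zpow_neg_one, flow_ainv]
      refine ⟨by simp [lev], ?_, ?_⟩
      · intro c
        show (-T (-1, 0)).coeff c ≠ 0 → |(-T (-1, 0)).coeff c| ≤ 1 ∧ _
        rw [coeff_neg, Finsupp.neg_apply, coeff_T]
        split_ifs with h
        · intro _
          rw [← h]
          simp [lev]
        · intro h1
          exact absurd neg_zero h1
      · intro c h
        exact absurd rfl h
  have key2 : ∃ sy : ℤ, ∀ sx, Pos ε δ sx sy (flow (gb ^ δ)) := by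
    rcases hδ with rfl | rfl
    · refine ⟨0, fun sx => ?_⟩
      rw [zpow_one, flow_b]
      refine ⟨by simp [lev], ?_, ?_⟩
      · intro c h
        exact absurd rfl h
      · intro c
        show (1 : R).coeff c ≠ 0 → |(1 : R).coeff c| ≤ 1 ∧ _
        rw [coeff_one']
        split_ifs with h
        · intro _
          rw [← h]
          simp [lev]
        · intro h1
          exact absurd rfl h1
    · refine ⟨1, fun sx => ?_⟩
      rw [zpow_neg_one, flow_binv]
      refine ⟨by simp [lev], ?_, ?_⟩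
      · intro c h
        exact absurd rfl h
      · intro c
        show (-T (0, -1)).coeff c ≠ 0 → |(-T (0, -1)).coeff c| ≤ 1 ∧ _
        rw [coeff_neg, Finsupp.neg_apply, coeff_T]
        split_ifs with h
        · intro _
          rw [← h]
          simp [lev]
        · intro h1
          exact absurd neg_zero h1
  obtain ⟨sx, hx⟩ := key
  obtain ⟨sy, hy⟩ := key2
  exact ⟨sx, sy, hx sy, hy sx⟩

/-- the words with positive exponents -/
abbrev M : Submonoid F := Submonoid.closure {ga, gb}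

theorem pos_of_mem {ε δ : ℤ} (hε : ε = 1 ∨ ε = -1) (hδ : δ = 1 ∨ δ = -1) {g : F} (hg : g ∈ M) :
    Bd 1 (flow (sgn ε δ g)) := by
  obtain ⟨sx, sy, ha, hb⟩ := exists_pos ε δ hε hδ
  suffices h : Pos ε δ sx sy (flow (sgn ε δ g)) from h.bd
  induction hg using Submonoid.closure_induction with
  | mem x hx =>
    rcases hx with rfl | rfl
    · rw [sgn_a]; exact ha
    · rw [sgn_b]; exact hb
  | one => rw [map_one, map_one]; exact Pos.one
  | mul x y _ _ hx hy => rw [map_mul, map_mul]; exact hx.mul hy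

/-- the positive Nielsen automorphisms -/
noncomputable def ni1 : F ≃* F :=
  MonoidHom.toMulEquiv (FreeGroup.lift ![ga, gb * ga]) (FreeGroup.lift ![ga, gb * ga⁻¹])
    (by ext i; fin_cases i <;> simp) (by ext i; fin_cases i <;> simp)

/-- the positive Nielsen automorphisms -/
noncomputable def ni2 : F ≃* F :=
  MonoidHom.toMulEquiv (FreeGroup.lift ![ga * gb, gb]) (FreeGroup.lift ![ga * gb⁻¹, gb])
    (by ext i; fin_cases i <;> simp) (by ext i; fin_cases i <;> simp)

/-- the exchange of the generators -/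
noncomputable def ni3 : F ≃* F :=
  MonoidHom.toMulEquiv (FreeGroup.lift ![gb, ga]) (FreeGroup.lift ![gb, ga])
    (by ext i; fin_cases i <;> simp) (by ext i; fin_cases i <;> simp)

theorem ni1_a : ni1 ga = ga := by
  show FreeGroup.lift ![ga, gb * ga] ga = ga
  simp
theorem ni1_b : ni1 gb = gb * ga := by
  show FreeGroup.lift ![ga, gb * ga] gb = gb * ga
  simp
theorem ni2_a : ni2 ga = ga * gb := by
  show FreeGroup.lift ![ga * gb, gb] ga = ga * gb
  simp
theorem ni2_b : ni2 gb = gb := by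
  show FreeGroup.lift ![ga * gb, gb] gb = gb
  simp
theorem ni3_a : ni3 ga = gb := by
  show FreeGroup.lift ![gb, ga] ga = gb
  simp

theorem ga_mem : ga ∈ M := Submonoid.subset_closure (by simp)
theorem gb_mem : gb ∈ M := Submonoid.subset_closure (by simp)

theorem map_M {φ : F ≃* F} (ha : φ ga ∈ M) (hb : φ gb ∈ M) {g : F} (hg : g ∈ M) : φ g ∈ M := by
  induction hg using Submonoid.closure_induction with
  | mem x hx =>
    rcases hx with rfl | rfl
    · exact ha
    · exact hb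
  | one => rw [map_one]; exact one_mem _
  | mul x y _ _ hx hy => rw [map_mul]; exact mul_mem hx hy

/-- the end point under a substitution -/
theorem end_map (φ : F →* F) (g : F) : (flow (φ g)).v =
    (flow g).v.1 • (flow (φ ga)).v + (flow g).v.2 • (flow (φ gb)).v := by
  induction g using FreeGroup.induction_on with
  | C1 => rw [map_one, map_one, one_v]; simp
  | of i =>
    fin_cases i
    · show (flow (φ ga)).v = (flow ga).v.1 • (flow (φ ga)).v + (flow ga).v.2 • (flow (φ gb)).v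
      rw [flow_a]; simp
    · show (flow (φ gb)).v = (flow gb).v.1 • (flow (φ ga)).v + (flow gb).v.2 • (flow (φ gb)).v
      rw [flow_b]; simp
  | inv_of i h =>
    rw [map_inv, map_inv, inv_v, h, map_inv, inv_v]
    simp only [Prod.fst_neg, Prod.snd_neg, neg_smul, neg_add]
  | mul g h hg hh =>
    rw [map_mul, map_mul, mul_v, hg, hh, map_mul, mul_v]
    simp only [Prod.fst_add, Prod.snd_add, add_smul]
    abel

/-- for every pair of coprime natural numbers there is a primitive positive word -/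
theorem exists_prim (N : ℕ) : ∀ m n : ℕ, m + n ≤ N → Nat.Coprime m n →
    ∃ φ : F ≃* F, φ ga ∈ M ∧ (flow (φ ga)).v = ((m : ℤ), (n : ℤ)) := by
  induction N with
  | zero =>
    intro m n h hc
    have h1 : m = 0 := by omega
    have h2 : n = 0 := by omega
    subst h1; subst h2
    simp at hc
  | succ N ih =>
    intro m n h hc
    rcases Nat.eq_zero_or_pos n with rfl | hn
    · have h1 : m = 1 := by simpa using hc
      subst h1
      exact ⟨MulEquiv.refl F, ga_mem, by
        show (flow ga).v = _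
        rw [flow_a]; simp⟩
    rcases Nat.eq_zero_or_pos m with rfl | hm
    · have h1 : n = 1 := by simpa using hc
      subst h1
      exact ⟨ni3, by rw [ni3_a]; exact gb_mem, by rw [ni3_a, flow_b]; simp⟩
    rcases le_total n m with hle | hle
    · obtain ⟨φ, h1, h2⟩ := ih (m - n) n (by omega) ((Nat.coprime_sub_self_left hle).mpr hc)
      refine ⟨φ.trans ni1, show ni1 (φ ga) ∈ M from map_M (φ := ni1) (by rw [ni1_a]; exact ga_mem)
        (by rw [ni1_b]; exact mul_mem gb_mem ga_mem) h1, ?_⟩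
      have h3 := end_map ni1.toMonoidHom (φ ga)
      have h4 : (flow (φ.trans ni1 ga)).v = (flow (ni1.toMonoidHom (φ ga))).v := rfl
      rw [h4, h3, h2]
      show _ • (flow (ni1 ga)).v + _ • (flow (ni1 gb)).v = _
      rw [ni1_a, ni1_b, map_mul, mul_v, flow_a, flow_b]
      ext
      · simp [Nat.cast_sub hle]
      · simp
    · obtain ⟨φ, h1, h2⟩ := ih m (n - m) (by omega) ((Nat.coprime_sub_self_right hle).mpr hc)
      refine ⟨φ.trans ni2, show ni2 (φ ga) ∈ M from map_M (φ := ni2)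
        (by rw [ni2_a]; exact mul_mem ga_mem gb_mem) (by rw [ni2_b]; exact gb_mem) h1, ?_⟩
      have h3 := end_map ni2.toMonoidHom (φ ga)
      have h4 : (flow (φ.trans ni2 ga)).v = (flow (ni2.toMonoidHom (φ ga))).v := rfl
      rw [h4, h3, h2]
      show _ • (flow (ni2 ga)).v + _ • (flow (ni2 gb)).v = _
      rw [ni2_a, ni2_b, map_mul, mul_v, flow_a, flow_b]
      ext
      · simp
      · simp [Nat.cast_sub hle]

theorem sgn_abs (m : ℤ) : ∃ ε : ℤ, (ε = 1 ∨ ε = -1) ∧ ε * ε = 1 ∧ (m.natAbs : ℤ) * ε = m := by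
  rcases le_total 0 m with h | h
  · refine ⟨1, Or.inl rfl, by norm_num, ?_⟩
    rw [mul_one, Int.natCast_natAbs, abs_of_nonneg h]
  · refine ⟨-1, Or.inr rfl, by norm_num, ?_⟩
    rw [Int.natCast_natAbs, abs_of_nonpos h]; ring

/-- every primitive vector is the end of a primitive element with a small flow -/
theorem exists_small (v : ℤ × ℤ) (hv : IsCoprime v.1 v.2) :
    ∃ φ : F ≃* F, Bd 1 (flow (φ ga)) ∧ (flow (φ ga)).v = v := by
  obtain ⟨φ, h1, h2⟩ := exists_prim (v.1.natAbs + v.2.natAbs) v.1.natAbs v.2.natAbs le_rfl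
    (Int.isCoprime_iff_gcd_eq_one.mp hv)
  obtain ⟨ε, e1, e2, e3⟩ := sgn_abs v.1
  obtain ⟨δ, d1, d2, d3⟩ := sgn_abs v.2
  refine ⟨φ.trans (sgnE ε δ e2 d2), ?_, ?_⟩
  · exact pos_of_mem e1 d1 h1
  · have h4 : (flow (φ.trans (sgnE ε δ e2 d2) ga)).v = (flow (sgn ε δ (φ ga))).v := rfl
    rw [h4, end_map, h2, sgn_a, sgn_b]
    have ha : (flow (ga ^ ε)).v = (ε, 0) := by
      rcases e1 with rfl | rfl
      · rw [zpow_one, flow_a]
      · rw [zpow_neg_one, flow_ainv]
    have hb : (flow (gb ^ δ)).v = (0, δ) := by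
      rcases d1 with rfl | rfl
      · rw [zpow_one, flow_b]
      · rw [zpow_neg_one, flow_binv]
    rw [ha, hb]
    ext
    · simp only [Prod.fst_add, Prod.smul_fst, smul_eq_mul, mul_zero, add_zero]
      exact e3
    · simp only [Prod.snd_add, Prod.smul_snd, smul_eq_mul, mul_zero, zero_add]
      exact d3

/-- every primitive element is conjugate to an element with a small flow -/
theorem prim_conj (φ : F ≃* F) : ∃ g : F, Bd 1 (flow (g⁻¹ * φ ga * g)) := by
  have hc : IsCoprime (flow (φ ga)).v.1 (flow (φ ga)).v.2 := by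
    have h := jac_det φ
    rw [det_apply] at h
    exact ⟨(flow (φ gb)).v.2 * ((flow (φ ga)).v.1 * (flow (φ gb)).v.2 -
      (flow (φ ga)).v.2 * (flow (φ gb)).v.1), -(flow (φ gb)).v.1 * ((flow (φ ga)).v.1 *
      (flow (φ gb)).v.2 - (flow (φ ga)).v.2 * (flow (φ gb)).v.1), by linear_combination h⟩
  obtain ⟨ψ, h1, h2⟩ := exists_small _ hc
  obtain ⟨g, hg⟩ := conj_flow φ ψ h2.symm
  exact ⟨g, by rw [hg]; exact h1⟩

end Pool.Agent.X196.SQ
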